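import Mathlib

/-!
Insurance theorem for MP_3ea55a_an: from real bounded functions on systems in `Type`, Cauchy form,
to complex functions in `L^∞` on systems in any universe, with a limit in `L²`.
-/

set_option autoImplicit false

open MeasureTheory Filter Topology
open scoped ENNReal

namespace Pool.Agent.H60.NSIns

universe u

section zpow

variable {X : Type u} [MeasurableSpace X] {μ : Measure X} (T : X ≃ᵐ X)

lemma zpow_succ_apply (k : ℤ) (x : X) : (T.toEquiv ^ (k + 1)) x = (T.toEquiv ^ k) (T x) := by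
  rw [zpow_add, zpow_one]; rfl

lemma zpow_pred_apply (k : ℤ) (x : X) : (T.toEquiv ^ (k - 1)) x = (T.toEquiv ^ k) (T.symm x) := by
  rw [zpow_sub, zpow_one]; rfl

lemma meas_zpow (k : ℤ) : Measurable (fun x : X => (T.toEquiv ^ k) x) := by
  induction k using Int.induction_on with
  | zero =>
    have : (fun x : X => (T.toEquiv ^ (0 : ℤ)) x) = id := by
      funext x; rw [zpow_zero]; rfl
    rw [this]; exact measurable_id
  | succ k ih =>
    have : (fun x : X => (T.toEquiv ^ ((k : ℤ) + 1)) x) = fun x => (T.toEquiv ^ (k : ℤ)) (T x) := by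
      funext x; exact zpow_succ_apply T _ x
    rw [this]; exact ih.comp T.measurable
  | pred k ih =>
    have : (fun x : X => (T.toEquiv ^ (-(k : ℤ) - 1)) x) =
        fun x => (T.toEquiv ^ (-(k : ℤ))) (T.symm x) := by
      funext x; exact zpow_pred_apply T _ x
    rw [this]; exact ih.comp T.symm.measurable

lemma mp_zpow (hT : MeasurePreserving T μ μ) (k : ℤ) :
    MeasurePreserving (fun x : X => (T.toEquiv ^ k) x) μ μ := by
  induction k using Int.induction_on with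
  | zero =>
    have : (fun x : X => (T.toEquiv ^ (0 : ℤ)) x) = id := by
      funext x; rw [zpow_zero]; rfl
    rw [this]; exact MeasurePreserving.id μ
  | succ k ih =>
    have : (fun x : X => (T.toEquiv ^ ((k : ℤ) + 1)) x) =
        (fun x : X => (T.toEquiv ^ (k : ℤ)) x) ∘ T := by
      funext x; exact zpow_succ_apply T _ x
    rw [this]; exact ih.comp hT
  | pred k ih =>
    have : (fun x : X => (T.toEquiv ^ (-(k : ℤ) - 1)) x) =
        (fun x : X => (T.toEquiv ^ (-(k : ℤ))) x) ∘ T.symm := by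
      funext x; exact zpow_pred_apply T _ x
    rw [this]; exact ih.comp (MeasurePreserving.symm T hT)

end zpow

/-- The real averages along the powers `c j * a n`. -/
noncomputable def rav {X : Type u} [MeasurableSpace X] (T : X ≃ᵐ X) (a : ℕ → ℤ) {ℓ : ℕ}
    (c : Fin ℓ → ℤ) (f : Fin ℓ → X → ℝ) (N : ℕ) (x : X) : ℝ :=
  (1 / (N : ℝ)) * ∑ n ∈ Finset.Icc 1 N, ∏ j : Fin ℓ, f j ((T.toEquiv ^ (c j * a n)) x)

/-- The complex averages. -/
noncomputable def cav {X : Type u} [MeasurableSpace X] (T : X ≃ᵐ X) (a : ℕ → ℤ) {ℓ : ℕ}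
    (c : Fin ℓ → ℤ) (f : Fin ℓ → X → ℂ) (N : ℕ) (x : X) : ℂ :=
  (1 / (N : ℂ)) * ∑ n ∈ Finset.Icc 1 N, ∏ j : Fin ℓ, f j ((T.toEquiv ^ (c j * a n)) x)

/-- The statement for real bounded measurable functions in a given universe, Cauchy form. -/
def RealCauchy (a : ℕ → ℤ) : Prop :=
  ∀ (X : Type u) [MeasurableSpace X] (μ : Measure X) [IsProbabilityMeasure μ] (T : X ≃ᵐ X),
    MeasurePreserving T μ μ → ∀ (ℓ : ℕ) (c : Fin ℓ → ℤ) (f : Fin ℓ → X → ℝ),
      (∀ i, Measurable (f i)) → (∀ i, ∃ C : ℝ, ∀ x, |f i x| ≤ C) →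
      ∀ ε : ℝ, 0 < ε → ∃ M : ℕ, ∀ N ≥ M, ∀ N' ≥ M,
        ∫ x, (rav T a c f N x - rav T a c f N' x) ^ 2 ∂μ ≤ ε

/-- The averages along two sequences are close in `L²`, for real bounded measurable functions. -/
def RealSame (a b : ℕ → ℤ) : Prop :=
  ∀ (X : Type u) [MeasurableSpace X] (μ : Measure X) [IsProbabilityMeasure μ] (T : X ≃ᵐ X),
    MeasurePreserving T μ μ → ∀ (ℓ : ℕ) (c : Fin ℓ → ℤ) (f : Fin ℓ → X → ℝ),
      (∀ i, Measurable (f i)) → (∀ i, ∃ C : ℝ, ∀ x, |f i x| ≤ C) →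
      ∀ ε : ℝ, 0 < ε → ∃ M : ℕ, ∀ N ≥ M,
        ∫ x, (rav T a c f N x - rav T b c f N x) ^ 2 ∂μ ≤ ε

section rav

variable {X : Type u} [MeasurableSpace X] {μ : Measure X} (T : X ≃ᵐ X) (a : ℕ → ℤ) {ℓ : ℕ}
  (c : Fin ℓ → ℤ)

lemma rav_meas {f : Fin ℓ → X → ℝ} (hf : ∀ i, Measurable (f i)) (N : ℕ) :
    Measurable (rav T a c f N) := by
  unfold rav
  exact (Finset.measurable_sum _ fun m _ => Finset.measurable_prod _ fun i _ =>
    (hf i).comp (meas_zpow T _)).const_mul _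

lemma rav_bdd {f : Fin ℓ → X → ℝ} (hb : ∀ i, ∃ C : ℝ, ∀ x, |f i x| ≤ C) (N : ℕ) :
    ∃ C : ℝ, ∀ x, |rav T a c f N x| ≤ C := by
  choose C hC using hb
  refine ⟨|1 / (N : ℝ)| * ∑ n ∈ Finset.Icc 1 N, ∏ j : Fin ℓ, C j, fun x => ?_⟩
  unfold rav
  rw [abs_mul]
  gcongr
  refine (Finset.abs_sum_le_sum_abs _ _).trans (Finset.sum_le_sum fun n _ => ?_)
  rw [Finset.abs_prod]
  exact Finset.prod_le_prod (fun _ _ => abs_nonneg _) (fun j _ => hC j _)

lemma rav_memLp [IsProbabilityMeasure μ] {f : Fin ℓ → X → ℝ} (hf : ∀ i, Measurable (f i))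
    (hb : ∀ i, ∃ C : ℝ, ∀ x, |f i x| ≤ C) (N : ℕ) : MemLp (rav T a c f N) 2 μ := by
  obtain ⟨C, hC⟩ := rav_bdd T a c hb N
  exact MemLp.of_bound (rav_meas T a c hf N).aestronglyMeasurable C
    (Eventually.of_forall fun x => by rw [Real.norm_eq_abs]; exact hC x)

/-- A Cauchy sequence of real averages has a limit in `L²`. -/
lemma real_limit [IsProbabilityMeasure μ] {f : Fin ℓ → X → ℝ} (hf : ∀ i, Measurable (f i))
    (hb : ∀ i, ∃ C : ℝ, ∀ x, |f i x| ≤ C)
    (hC : ∀ ε : ℝ, 0 < ε → ∃ M : ℕ, ∀ N ≥ M, ∀ N' ≥ M,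
      ∫ x, (rav T a c f N x - rav T a c f N' x) ^ 2 ∂μ ≤ ε) :
    ∃ G : X → ℝ, MemLp G 2 μ ∧
      Tendsto (fun N => eLpNorm (fun x => rav T a c f N x - G x) 2 μ) atTop (𝓝 0) := by
  have hm : ∀ N, MemLp (rav T a c f N) 2 μ := fun N => rav_memLp T a c hf hb N
  have hd : ∀ N N' : ℕ, edist ((hm N).toLp _) ((hm N').toLp _) =
      ENNReal.ofReal (√(∫ x, (rav T a c f N x - rav T a c f N' x) ^ 2 ∂μ)) := by
    intro N N'
    rw [Lp.edist_toLp_toLp]
    have h := MemLp.eLpNorm_eq_integral_rpow_norm (p := 2) (by norm_num) (by norm_num)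
      ((hm N).sub (hm N'))
    rw [h]
    congr 1
    rw [Real.sqrt_eq_rpow]
    congr 1
    · apply integral_congr_ae
      filter_upwards with x
      simp [sq_abs]
    · norm_num
  have hcs : CauchySeq (fun N => (hm N).toLp (rav T a c f N)) := by
    rw [EMetric.cauchySeq_iff]
    intro ε hε
    obtain ⟨δ, hδ0, hδ⟩ : ∃ δ : ℝ, 0 < δ ∧ ENNReal.ofReal δ < ε := by
      rcases eq_or_ne ε ⊤ with h | h
      · exact ⟨1, one_pos, by rw [h]; exact ENNReal.ofReal_lt_top⟩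
      · have h0 : 0 < ε.toReal := ENNReal.toReal_pos hε.ne' h
        refine ⟨ε.toReal / 2, by positivity, ?_⟩
        rw [ENNReal.ofReal_lt_iff_lt_toReal (by positivity) h]
        linarith
    obtain ⟨M, hM⟩ := hC (δ ^ 2) (by positivity)
    refine ⟨M, fun N hN N' hN' => ?_⟩
    rw [hd]
    refine lt_of_le_of_lt (ENNReal.ofReal_le_ofReal ?_) hδ
    rw [Real.sqrt_le_left hδ0.le]
    exact hM N hN N' hN'
  obtain ⟨g, hg⟩ := cauchySeq_tendsto_of_complete hcs
  refine ⟨g, Lp.memLp g, ?_⟩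
  rw [tendsto_iff_edist_tendsto_0] at hg
  refine hg.congr fun N => ?_
  have : edist ((hm N).toLp (rav T a c f N)) g = eLpNorm (⇑((hm N).toLp (rav T a c f N)) - ⇑g) 2 μ := by
    rw [Lp.edist_def]
  rw [this]
  apply eLpNorm_congr_ae
  filter_upwards [(hm N).coeFn_toLp] with x hx
  simp [hx]

end rav

end Pool.Agent.H60.NSIns
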