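import Pool.Agent.H60.NSIns.Lift

/-!
From real bounded measurable functions to complex functions in `L^∞`.
-/

set_option autoImplicit false

open MeasureTheory Filter Topology
open scoped ENNReal

namespace Pool.Agent.H60.NSIns

universe u

variable {X : Type u} [MeasurableSpace X] {μ : Measure X} (T : X ≃ᵐ X) (a : ℕ → ℤ) {ℓ : ℕ}
  (c : Fin ℓ → ℤ)

/-- the real or the imaginary part -/
noncomputable def part (f : Fin ℓ → X → ℂ) (S : Finset (Fin ℓ)) (j : Fin ℓ) (x : X) : ℝ :=
  if j ∈ S then (f j x).re else (f j x).im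

/-- the coefficient -/
noncomputable def coef (S : Finset (Fin ℓ)) : ℂ := Complex.I ^ (Finset.univ \ S).card

lemma cav_eq (f : Fin ℓ → X → ℂ) (N : ℕ) (x : X) :
    cav T a c f N x = ∑ S ∈ (Finset.univ : Finset (Fin ℓ)).powerset,
      coef S * ((rav T a c (part f S) N x : ℝ) : ℂ) := by
  have h1 : ∀ z : Fin ℓ → X, ∏ j, f j (z j) = ∑ S ∈ (Finset.univ : Finset (Fin ℓ)).powerset,
      coef S * ((∏ j, part f S j (z j) : ℝ) : ℂ) := by
    intro z
    have e : ∀ j, f j (z j) = ((f j (z j)).re : ℂ) + Complex.I * ((f j (z j)).im : ℂ) := by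
      intro j
      rw [mul_comm]
      exact (Complex.re_add_im _).symm
    rw [Finset.prod_congr rfl (fun j _ => e j), Finset.prod_add]
    refine Finset.sum_congr rfl fun S _ => ?_
    rw [Finset.prod_mul_distrib, Finset.prod_const]
    unfold coef
    rw [mul_left_comm]
    congr 1
    rw [← Finset.prod_sdiff (Finset.subset_univ S)]
    push_cast
    rw [mul_comm]
    congr 1
    · refine Finset.prod_congr rfl fun j hj => ?_
      unfold part
      rw [if_neg (by simpa using hj)]
    · refine Finset.prod_congr rfl fun j hj => ?_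
      unfold part
      rw [if_pos hj]
  unfold cav rav
  simp only [h1]
  rw [Finset.sum_comm, Finset.mul_sum]
  refine Finset.sum_congr rfl fun S _ => ?_
  push_cast
  rw [← Finset.mul_sum]
  ring

/-- A limit of the averages along `a` is a limit of the averages along `b`. -/
lemma real_limit_same [IsProbabilityMeasure μ] {a b : ℕ → ℤ} {f : Fin ℓ → X → ℝ}
    (hf : ∀ i, Measurable (f i)) (hb : ∀ i, ∃ C : ℝ, ∀ x, |f i x| ≤ C)
    (hS : ∀ ε : ℝ, 0 < ε → ∃ M : ℕ, ∀ N ≥ M,
      ∫ x, (rav T a c f N x - rav T b c f N x) ^ 2 ∂μ ≤ ε)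
    {G : X → ℝ} (hG : MemLp G 2 μ)
    (hGt : Tendsto (fun N => eLpNorm (fun x => rav T a c f N x - G x) 2 μ) atTop (𝓝 0)) :
    Tendsto (fun N => eLpNorm (fun x => rav T b c f N x - G x) 2 μ) atTop (𝓝 0) := by
  have hma : ∀ N, MemLp (rav T a c f N) 2 μ := fun N => rav_memLp T a c hf hb N
  have hmb : ∀ N, MemLp (rav T b c f N) 2 μ := fun N => rav_memLp T b c hf hb N
  have hd : Tendsto (fun N => eLpNorm (fun x => rav T a c f N x - rav T b c f N x) 2 μ) atTop
      (𝓝 0) := by
    have e : ∀ N, eLpNorm (fun x => rav T a c f N x - rav T b c f N x) 2 μ =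
        ENNReal.ofReal (√(∫ x, (rav T a c f N x - rav T b c f N x) ^ 2 ∂μ)) := by
      intro N
      have h := MemLp.eLpNorm_eq_integral_rpow_norm (p := 2) (by norm_num) (by norm_num)
        ((hma N).sub (hmb N))
      have h' : (fun x => rav T a c f N x - rav T b c f N x) = rav T a c f N - rav T b c f N := rfl
      rw [h', h]
      congr 1
      rw [Real.sqrt_eq_rpow]
      congr 1
      · apply integral_congr_ae
        filter_upwards with x
        simp [sq_abs]
      · norm_num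
    simp only [e]
    rw [← ENNReal.ofReal_zero]
    refine (ENNReal.continuous_ofReal.tendsto 0).comp ?_
    rw [← Real.sqrt_zero]
    refine (Real.continuous_sqrt.tendsto 0).comp ?_
    rw [Metric.tendsto_atTop]
    intro ε hε
    obtain ⟨M, hM⟩ := hS (ε / 2) (by positivity)
    refine ⟨M, fun N hN => ?_⟩
    have h0 : 0 ≤ ∫ x, (rav T a c f N x - rav T b c f N x) ^ 2 ∂μ :=
      integral_nonneg fun x => sq_nonneg _
    rw [Real.dist_eq, sub_zero, abs_of_nonneg h0]
    linarith [hM N hN]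
  have hle : ∀ N, eLpNorm (fun x => rav T b c f N x - G x) 2 μ ≤
      eLpNorm (fun x => rav T a c f N x - G x) 2 μ +
        eLpNorm (fun x => rav T a c f N x - rav T b c f N x) 2 μ := by
    intro N
    have e : (fun x => rav T b c f N x - G x) =
        (fun x => rav T a c f N x - G x) - (fun x => rav T a c f N x - rav T b c f N x) := by
      funext x
      simp only [Pi.sub_apply]
      ring
    rw [e]
    exact eLpNorm_sub_le ((hma N).1.sub hG.1) ((hma N).1.sub (hmb N).1) one_le_two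
  have h0 := hGt.add hd
  rw [add_zero] at h0
  exact tendsto_of_tendsto_of_tendsto_of_le_of_le tendsto_const_nhds h0 (fun N => zero_le) hle

lemma part_meas {f : Fin ℓ → X → ℂ} (hf : ∀ i, Measurable (f i)) (S : Finset (Fin ℓ)) (j : Fin ℓ) :
    Measurable (part f S j) := by
  unfold part
  split_ifs
  · exact Complex.measurable_re.comp (hf j)
  · exact Complex.measurable_im.comp (hf j)

lemma part_bdd {f : Fin ℓ → X → ℂ} (hb : ∀ i, ∃ C : ℝ, ∀ x, ‖f i x‖ ≤ C) (S : Finset (Fin ℓ))
    (j : Fin ℓ) : ∃ C : ℝ, ∀ x, |part f S j x| ≤ C := by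
  obtain ⟨C, hC⟩ := hb j
  refine ⟨C, fun x => ?_⟩
  unfold part
  split_ifs
  · exact (Complex.abs_re_le_norm _).trans (hC x)
  · exact (Complex.abs_im_le_norm _).trans (hC x)

/-- The limit of the complex averages from the limits of the real averages. -/
lemma cplx_of_real {f : Fin ℓ → X → ℂ} (hf : ∀ i, Measurable (f i)) {G : Finset (Fin ℓ) → X → ℝ}
    (hG : ∀ S, MemLp (G S) 2 μ)
    (hGt : ∀ S, Tendsto (fun N => eLpNorm (fun x => rav T a c (part f S) N x - G S x) 2 μ) atTop
      (𝓝 0)) :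
    Tendsto (fun N => eLpNorm (fun x => cav T a c f N x -
      ∑ S ∈ (Finset.univ : Finset (Fin ℓ)).powerset, coef S * ((G S x : ℝ) : ℂ)) 2 μ) atTop
      (𝓝 0) := by
  have hle : ∀ N, eLpNorm (fun x => cav T a c f N x -
      ∑ S ∈ (Finset.univ : Finset (Fin ℓ)).powerset, coef S * ((G S x : ℝ) : ℂ)) 2 μ ≤
      ∑ S ∈ (Finset.univ : Finset (Fin ℓ)).powerset,
        eLpNorm (fun x => rav T a c (part f S) N x - G S x) 2 μ := by
    intro N
    have e : (fun x => cav T a c f N x -
        ∑ S ∈ (Finset.univ : Finset (Fin ℓ)).powerset, coef S * ((G S x : ℝ) : ℂ)) =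
        ∑ S ∈ (Finset.univ : Finset (Fin ℓ)).powerset,
          fun x => coef S * (((rav T a c (part f S) N x - G S x : ℝ)) : ℂ) := by
      funext x
      rw [cav_eq, Finset.sum_apply, ← Finset.sum_sub_distrib]
      refine Finset.sum_congr rfl fun S _ => ?_
      push_cast
      ring
    rw [e]
    refine (eLpNorm_sum_le (fun S _ => ?_) one_le_two).trans (Finset.sum_le_sum fun S _ => ?_)
    · have h1 : AEStronglyMeasurable (fun x => rav T a c (part f S) N x - G S x) μ :=
        (rav_meas T a c (part_meas hf S) N).aestronglyMeasurable.sub (hG S).1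
      exact (Complex.continuous_ofReal.comp_aestronglyMeasurable h1).const_mul _
    · apply eLpNorm_mono
      intro x
      rw [norm_mul, Complex.norm_real]
      unfold coef
      rw [norm_pow, Complex.norm_I, one_pow, one_mul]
  refine tendsto_of_tendsto_of_tendsto_of_le_of_le tendsto_const_nhds ?_
    (fun N => zero_le) hle
  have := tendsto_finsetSum (f := fun S N => eLpNorm (fun x => rav T a c (part f S) N x - G S x) 2 μ)
    (a := fun _ => (0 : ℝ≥0∞)) (x := atTop)
    (Finset.univ : Finset (Fin ℓ)).powerset (fun S _ => hGt S)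
  simpa using this

/-- Bounded measurable complex functions. -/
lemma cplx_limit [IsProbabilityMeasure μ] {a b : ℕ → ℤ} (H : RealCauchy.{u} a)
    (HS : RealSame.{u} a b) (hT : MeasurePreserving T μ μ)
    {f : Fin ℓ → X → ℂ} (hf : ∀ i, Measurable (f i)) (hb : ∀ i, ∃ C : ℝ, ∀ x, ‖f i x‖ ≤ C) :
    ∃ G : X → ℂ, MemLp G 2 μ ∧
      Tendsto (fun N => eLpNorm (fun x => cav T a c f N x - G x) 2 μ) atTop (𝓝 0) ∧
      Tendsto (fun N => eLpNorm (fun x => cav T b c f N x - G x) 2 μ) atTop (𝓝 0) := by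
  have h : ∀ S : Finset (Fin ℓ), ∃ G : X → ℝ, MemLp G 2 μ ∧
      Tendsto (fun N => eLpNorm (fun x => rav T a c (part f S) N x - G x) 2 μ) atTop (𝓝 0) :=
    fun S => real_limit T a c (part_meas hf S) (part_bdd hb S)
      (H X μ T hT ℓ c (part f S) (part_meas hf S) (part_bdd hb S))
  choose G hG hGt using h
  refine ⟨fun x => ∑ S ∈ (Finset.univ : Finset (Fin ℓ)).powerset, coef S * ((G S x : ℝ) : ℂ), ?_,
    cplx_of_real T a c hf hG hGt, cplx_of_real T b c hf hG fun S =>
      real_limit_same T c (part_meas hf S) (part_bdd hb S)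
        (HS X μ T hT ℓ c (part f S) (part_meas hf S) (part_bdd hb S)) (hG S) (hGt S)⟩
  exact memLp_finsetSum _ fun S _ => ((hG S).ofReal).const_mul _

/-- A function in `L^∞` has a bounded measurable representative. -/
lemma exists_rep {f : X → ℂ} (hf : MemLp f ∞ μ) :
    ∃ g : X → ℂ, Measurable g ∧ (∃ C : ℝ, ∀ x, ‖g x‖ ≤ C) ∧ f =ᵐ[μ] g := by
  obtain ⟨h1, h2⟩ := hf
  set g0 : X → ℂ := h1.mk f with hg0
  have hm : Measurable g0 := h1.stronglyMeasurable_mk.measurable
  set C : ℝ := (eLpNorm f ∞ μ).toReal with hC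
  refine ⟨fun x => if ‖g0 x‖ ≤ C then g0 x else 0,
    Measurable.ite (measurableSet_le hm.norm measurable_const) hm measurable_const, ⟨C, ?_⟩, ?_⟩
  · intro x
    beta_reduce
    split_ifs with h
    · exact h
    · rw [norm_zero]; exact ENNReal.toReal_nonneg
  · have hb : ∀ᵐ x ∂μ, ‖f x‖ₑ ≤ eLpNorm f ∞ μ := by
      rw [eLpNorm_exponent_top]
      exact enorm_ae_le_eLpNormEssSup f μ
    filter_upwards [hb, h1.ae_eq_mk] with x hx1 hx2
    have h3 : ‖g0 x‖ ≤ C := by
      rw [hg0, ← hx2, hC, ← ENNReal.ofReal_le_iff_le_toReal h2.ne, ofReal_norm]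
      exact hx1
    rw [if_pos h3, hx2]

lemma cav_congr {f g : Fin ℓ → X → ℂ} (hT : MeasurePreserving T μ μ) (hfg : ∀ i, f i =ᵐ[μ] g i)
    (N : ℕ) (G : X → ℂ) :
    eLpNorm (fun x => cav T a c f N x - G x) 2 μ = eLpNorm (fun x => cav T a c g N x - G x) 2 μ := by
  apply eLpNorm_congr_ae
  have h1 : ∀ k : ℤ, ∀ i, (fun x => f i ((T.toEquiv ^ k) x)) =ᵐ[μ]
      fun x => g i ((T.toEquiv ^ k) x) :=
    fun k i => (mp_zpow T hT k).quasiMeasurePreserving.ae_eq_comp (hfg i)
  have h2 : ∀ᵐ x ∂μ, ∀ k : ℤ, ∀ i, f i ((T.toEquiv ^ k) x) = g i ((T.toEquiv ^ k) x) := by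
    rw [ae_all_iff]
    intro k
    rw [ae_all_iff]
    exact fun i => h1 k i
  filter_upwards [h2] with x hx
  unfold cav
  simp only [hx]

/-- Complex functions in `L^∞`. -/
theorem linf_limit [IsProbabilityMeasure μ] {a b : ℕ → ℤ} (H : RealCauchy.{u} a)
    (HS : RealSame.{u} a b) (hT : MeasurePreserving T μ μ)
    {f : Fin ℓ → X → ℂ} (hf : ∀ i, MemLp (f i) ∞ μ) :
    ∃ G : X → ℂ, MemLp G 2 μ ∧
      Tendsto (fun N => eLpNorm (fun x => cav T a c f N x - G x) 2 μ) atTop (𝓝 0) ∧
      Tendsto (fun N => eLpNorm (fun x => cav T b c f N x - G x) 2 μ) atTop (𝓝 0) := by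
  choose g hg hgb hfg using fun i => exists_rep (hf i)
  obtain ⟨G, hG, hGa, hGb⟩ := cplx_limit T c H HS hT hg hgb
  exact ⟨G, hG, hGa.congr fun N => (cav_congr T a c hT hfg N G).symm,
    hGb.congr fun N => (cav_congr T b c hT hfg N G).symm⟩

end Pool.Agent.H60.NSIns
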