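import Pool.Agent.H62.NS.Main
import Pool.Agent.H60.NSIns.Base

/-!
MP_3ea55a_an, general integer coefficients, and comparison with the linear averages.
(The proof follows `Pool/Agent/H62/NS/Floor.lean`.)
-/

set_option autoImplicit false
set_option linter.unusedSectionVars false

open MeasureTheory Finset
open scoped BigOperators

namespace Pool.Agent.H60.NSIns

open Pool.Agent.H63.NS Pool.Agent.H62.NS

/-- the shift of the window -/
noncomputable def sg (q k : ℕ) (c : ℤ) : ℝ := if 0 ≤ c then ((k : ℝ) - 1) / q else ((k : ℝ) + 2) / q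

lemma floor_idZ {q k L : ℕ} (hk : 1 ≤ k) (hkq : k + 2 ≤ q) (hq : 3 * L + 2 ≤ q) {θ u : ℝ} (h0 : 0 ≤ θ)
    (hθ : θ < 1 / q) (hh : hat q k (Int.fract (θ + u)) ≠ 0) {c : ℤ} (hc : |c| ≤ L) :
    ⌊θ + (c : ℝ) * (u - sg q k c)⌋ = c * ⌊u⌋ := by
  by_cases hc0 : 0 ≤ c
  · obtain ⟨i, rfl⟩ := Int.eq_ofNat_of_zero_le hc0
    have hi : i ≤ L := by
      have : |(i : ℤ)| = i := abs_of_nonneg hc0
      rw [this] at hc
      exact_mod_cast hc
    have h := floor_id hk hkq hq h0 hθ hh hi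
    unfold sg
    rw [if_pos hc0]
    exact_mod_cast h
  · have hneg : c < 0 := not_le.mp hc0
    have hq0 : (0 : ℝ) < q := by
      have : (2 : ℝ) ≤ q := by exact_mod_cast (by omega : 2 ≤ q)
      linarith
    obtain ⟨ha, hb⟩ := hat_supp hh
    have hk' : (1 : ℝ) ≤ k := by exact_mod_cast hk
    have hqθ : q * θ < 1 := by
      have := mul_lt_mul_of_pos_left hθ hq0
      have e : (q : ℝ) * (1 / q) = 1 := by field_simp
      rwa [e] at this
    set t := Int.fract (θ + u) with ht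
    have hw : (⌊θ + u⌋ : ℝ) + t = θ + u := Int.floor_add_fract (θ + u)
    have ht1 : t < 1 := Int.fract_lt_one _
    have htθ : θ < t := by
      by_contra h
      have h2 : t ≤ θ := not_lt.mp h
      have : (q : ℝ) * t ≤ q * θ := mul_le_mul_of_nonneg_left h2 hq0.le
      linarith
    have hfl : ⌊u⌋ = ⌊θ + u⌋ := by
      rw [Int.floor_eq_iff]
      constructor
      · linarith
      · linarith
    have hu : u = (⌊u⌋ : ℝ) + (t - θ) := by
      rw [hfl]; linarith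
    unfold sg
    rw [if_neg hc0, Int.floor_eq_iff]
    push_cast
    set s := ((k : ℝ) + 2) / q - (t - θ) with hs
    have es : (q : ℝ) * s = (k + 2) - q * t + q * θ := by
      rw [hs]; field_simp; ring
    have hqθ0 : 0 ≤ q * θ := mul_nonneg hq0.le h0
    have hs0 : 0 ≤ s := by
      have : 0 ≤ q * s := by rw [es]; linarith
      exact nonneg_of_mul_nonneg_right this hq0
    have hs3 : q * s < 3 := by rw [es]; linarith
    have e : θ + (c : ℝ) * (u - ((k : ℝ) + 2) / q) = c * (⌊u⌋ : ℝ) + (θ + (-c : ℝ) * s) := by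
      rw [hs]
      nth_rewrite 1 [hu]
      ring
    have hcl : (-c : ℝ) ≤ L := by
      have h1 : -c ≤ L := by
        have := neg_le_abs c
        exact this.trans hc
      exact_mod_cast h1
    have hcn : (0 : ℝ) ≤ -c := by
      have : (c : ℝ) < 0 := by exact_mod_cast hneg
      linarith
    have hq' : 3 * (L : ℝ) + 2 ≤ q := by exact_mod_cast hq
    rw [e]
    constructor
    · have := mul_nonneg hcn hs0
      linarith
    · have h1 : q * (θ + (-c : ℝ) * s) < q * 1 := by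
        have h2 : (-c : ℝ) * (q * s) ≤ L * 3 :=
          mul_le_mul hcl hs3.le (mul_nonneg hq0.le hs0) (Nat.cast_nonneg L)
        have e2 : (q : ℝ) * (θ + (-c : ℝ) * s) = q * θ + (-c) * (q * s) := by ring
        rw [e2]
        linarith
      have h3 := lt_of_mul_lt_mul_left h1 hq0.le
      linarith

variable {X Y : Type} [MeasurableSpace X] [MeasurableSpace Y] {ν : Measure Y}
    [IsProbabilityMeasure ν] {μ : Measure X} [IsProbabilityMeasure μ] {T : X ≃ᵐ X} {F : Flow ν} {th : Y → ℝ} {p : Y → X}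

section

variable {ℓ : ℕ} (c : Fin ℓ → ℤ)

/-- the product of the functions along `T^(c_i floor u)` -/
noncomputable def ph (T : X ≃ᵐ X) (c : Fin ℓ → ℤ) (f : Fin ℓ → X → ℝ) (u : ℝ) (x : X) : ℝ :=
  ∏ i : Fin ℓ, f i ((T.toEquiv ^ (c i * ⌊u⌋)) x)

lemma ph_abs {f : Fin ℓ → X → ℝ} (hb : ∀ i x, |f i x| ≤ 1) (u : ℝ) (x : X) : |ph T c f u x| ≤ 1 := by
  unfold ph
  rw [Finset.abs_prod]
  exact Finset.prod_le_one (fun _ _ => abs_nonneg _) (fun i _ => hb i _)

/-- the exponents -/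
def ec (c : Fin ℓ → ℤ) : Fin (ℓ + 1) → ℤ := Fin.cons 1 c

/-- the functions -/
noncomputable def fc (hS : IsSusp μ T F th p) {f : Fin ℓ → X → ℝ} (hf : ∀ i, Measurable (f i))
    (hb : ∀ i x, |f i x| ≤ 1) (q k : ℕ) : Fin (ℓ + 1) → BM Y :=
  Fin.cons (hB hS q k) (fun i => F.T (-((c i : ℝ) * sg q k (c i))) (fB hS (f i) (hf i) (hb i)))

lemma good_fc (hS : IsSusp μ T F th p) {f : Fin ℓ → X → ℝ} (hf : ∀ i, Measurable (f i))
    (hb : ∀ i x, |f i x| ≤ 1) {q k : ℕ} (hk : k + 2 ≤ q) (j : Fin (ℓ + 1)) :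
    F.Good (fc c hS hf hb q k j) := by
  refine Fin.cases ?_ (fun i => ?_) j
  · exact good_hB hS hk
  · exact (good_fB hS (hf i) (hb i)).T _

lemma prod_ec (hS : IsSusp μ T F th p) {f : Fin ℓ → X → ℝ} (hf : ∀ i, Measurable (f i))
    (hb : ∀ i x, |f i x| ≤ 1) {L : ℕ} (hL : ∀ i, |c i| ≤ L) {q k : ℕ} (hk : 1 ≤ k) (hkq : k + 2 ≤ q)
    (hq : 3 * L + 2 ≤ q) (u : ℝ) (y : Y) (hy : th y < 1 / q) :
    ((∏ j, F.T ((ec c j : ℝ) * u) (fc c hS hf hb q k j) : BM Y) : Y → ℝ) y =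
      hat q k (Int.fract (th y + u)) * ph T c f u (p y) := by
  rw [Fin.prod_univ_succ, BM.mul_ap, BM.prod_ap]
  have e0 : ((F.T ((ec c 0 : ℝ) * u) (fc c hS hf hb q k 0) : BM Y) : Y → ℝ) y =
      hat q k (Int.fract (th y + u)) := by
    have e1 : ((ec c 0 : ℤ) : ℝ) * u = u := by
      unfold ec
      rw [Fin.cons_zero]
      push_cast
      ring
    rw [e1]
    exact T_cB hS (hat_cont q k).measurable (abs_hat_le q k) u y
  rw [e0]
  by_cases hh : hat q k (Int.fract (th y + u)) = 0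
  · rw [hh, zero_mul, zero_mul]
  · congr 1
    unfold ph
    apply Finset.prod_congr rfl
    intro i _
    have e1 : ((ec c i.succ : ℤ) : ℝ) = (c i : ℝ) := by
      unfold ec
      rw [Fin.cons_succ]
    have e2 : fc c hS hf hb q k i.succ =
        F.T (-((c i : ℝ) * sg q k (c i))) (fB hS (f i) (hf i) (hb i)) := rfl
    rw [e1, e2, F.T_T, T_fB]
    have h := floor_idZ hk hkq hq (hS.th0 y) hy hh (hL i)
    have e3 : th y + ((c i : ℝ) * u + -((c i : ℝ) * sg q k (c i))) =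
        th y + (c i : ℝ) * (u - sg q k (c i)) := by
      ring
    rw [e3, h]

lemma ph_dec (hS : IsSusp μ T F th p) {f : Fin ℓ → X → ℝ} (hf : ∀ i, Measurable (f i))
    (hb : ∀ i x, |f i x| ≤ 1) {L : ℕ} (hL : ∀ i, |c i| ≤ L) {q : ℕ} (hq : 3 * L + 2 ≤ q)
    (hq2 : 2 ≤ q) (u : ℝ) (y : Y) (hy : th y < 1 / q) :
    |ph T c f u (p y) - ∑ k ∈ Ico 1 (q - 1),
        ((∏ j, F.T ((ec c j : ℝ) * u) (fc c hS hf hb q k j) : BM Y) : Y → ℝ) y| ≤
      (F.T u (rB hS hq2) : Y → ℝ) y := by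
  have e1 : ∑ k ∈ Ico 1 (q - 1), ((∏ j, F.T ((ec c j : ℝ) * u) (fc c hS hf hb q k j) : BM Y) : Y → ℝ) y =
      (1 - rem q (Int.fract (th y + u))) * ph T c f u (p y) := by
    rw [← sum_hat hq2 (Int.fract (th y + u)), add_sub_cancel_right, Finset.sum_mul]
    apply Finset.sum_congr rfl
    intro k hk
    rw [Finset.mem_Ico] at hk
    exact prod_ec c hS hf hb hL hk.1 (by omega) hq u y hy
  have e2 : (F.T u (rB hS hq2) : Y → ℝ) y = rem q (Int.fract (th y + u)) :=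
    T_cB hS (rem_cont q).measurable (abs_rem_le hq2) u y
  rw [e1, e2]
  have e3 : ph T c f u (p y) - (1 - rem q (Int.fract (th y + u))) * ph T c f u (p y) =
      rem q (Int.fract (th y + u)) * ph T c f u (p y) := by ring
  rw [e3, abs_mul, abs_of_nonneg (rem_nonneg _ _)]
  exact mul_le_of_le_one_right (rem_nonneg _ _) (ph_abs c hb _ _)

end

section av

variable {ℓ : ℕ} (c : Fin ℓ → ℤ)

/-- the averages on `X` -/
noncomputable def xA (T : X ≃ᵐ X) (f : Fin ℓ → X → ℝ) (s : Finset ℕ) (u : ℕ → ℝ) (x : X) : ℝ :=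
  av s (fun m => ph T c f (u m) x)

/-- the averages with a hat on the suspension -/
noncomputable def kA (hS : IsSusp μ T F th p) {f : Fin ℓ → X → ℝ} (hf : ∀ i, Measurable (f i))
    (hb : ∀ i x, |f i x| ≤ 1) (q k : ℕ) (s : Finset ℕ) (u : ℕ → ℝ) : BM Y :=
  av s (fun m => ∏ j, F.T ((ec c j : ℝ) * u m) (fc c hS hf hb q k j))

/-- the averages of the remainder -/
noncomputable def rA (hS : IsSusp μ T F th p) {q : ℕ} (hq : 2 ≤ q) (s : Finset ℕ) (u : ℕ → ℝ) : BM Y :=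
  av s (fun m => F.T (u m) (rB hS hq))

lemma xA_dec (hS : IsSusp μ T F th p) {f : Fin ℓ → X → ℝ} (hf : ∀ i, Measurable (f i))
    (hb : ∀ i x, |f i x| ≤ 1) {L : ℕ} (hL : ∀ i, |c i| ≤ L) {q : ℕ} (hq : 3 * L + 2 ≤ q)
    (hq2 : 2 ≤ q) (s : Finset ℕ) (u : ℕ → ℝ) (y : Y) (hy : th y < 1 / q) :
    |xA c T f s u (p y) - ∑ k ∈ Ico 1 (q - 1), (kA c hS hf hb q k s u : Y → ℝ) y| ≤
      (rA hS hq2 s u : Y → ℝ) y := by
  have e1 : ∑ k ∈ Ico 1 (q - 1), (kA c hS hf hb q k s u : Y → ℝ) y =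
      av s (fun m => ∑ k ∈ Ico 1 (q - 1),
        ((∏ j, F.T ((ec c j : ℝ) * u m) (fc c hS hf hb q k j) : BM Y) : Y → ℝ) y) := by
    unfold kA
    rw [Finset.sum_congr rfl (fun k _ => av_ap _ _ y)]
    unfold av
    rw [← Finset.smul_sum, Finset.sum_comm]
  rw [e1]
  unfold xA rA
  rw [← av_sub, av_ap]
  refine (abs_av_le_av _ _).trans (av_mono ?_)
  intro m _
  exact ph_dec c hS hf hb hL hq hq2 (u m) y hy

lemma rA_nonneg (hS : IsSusp μ T F th p) {q : ℕ} (hq : 2 ≤ q) (s : Finset ℕ) (u : ℕ → ℝ) (y : Y) :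
    0 ≤ (rA hS hq s u : Y → ℝ) y := by
  unfold rA
  rw [av_ap]
  exact av_nonneg (fun m _ => rem_nonneg _ _)

lemma rA_le (hS : IsSusp μ T F th p) {q : ℕ} (hq : 2 ≤ q) (s : Finset ℕ) (u : ℕ → ℝ) (y : Y) :
    (rA hS hq s u : Y → ℝ) y ≤ 1 := by
  unfold rA
  rw [av_ap]
  have h : |av s (fun i => (F.T (u i) (rB hS hq) : Y → ℝ) y)| ≤ 1 :=
    abs_av_le' zero_le_one (fun m _ => abs_rem_le hq _)
  exact (le_abs_self _).trans h

/-- pointwise estimate in the window -/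
lemma xq_dec (hS : IsSusp μ T F th p) {f : Fin ℓ → X → ℝ} (hf : ∀ i, Measurable (f i))
    (hb : ∀ i x, |f i x| ≤ 1) {L : ℕ} (hL : ∀ i, |c i| ≤ L) {q : ℕ} (hq : 3 * L + 2 ≤ q)
    (hq2 : 2 ≤ q) (s s' : Finset ℕ) (u u' : ℕ → ℝ) (y : Y) (hy : th y < 1 / q) :
    (xA c T f s u (p y) - xA c T f s' u' (p y)) ^ 2 ≤
      2 * q * ∑ k ∈ Ico 1 (q - 1),
        ((kA c hS hf hb q k s u - kA c hS hf hb q k s' u' : BM Y) : Y → ℝ) y ^ 2 +
        4 * ((rA hS hq2 s u : Y → ℝ) y + (rA hS hq2 s' u' : Y → ℝ) y) := by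
  have h1 := xA_dec c hS hf hb hL hq hq2 s u y hy
  have h2 := xA_dec c hS hf hb hL hq hq2 s' u' y hy
  have r0 := rA_nonneg hS hq2 s u y
  have r0' := rA_nonneg hS hq2 s' u' y
  have r1 := rA_le hS hq2 s u y
  have r1' := rA_le hS hq2 s' u' y
  set R := (rA hS hq2 s u : Y → ℝ) y
  set R' := (rA hS hq2 s' u' : Y → ℝ) y
  set S := ∑ k ∈ Ico 1 (q - 1), (kA c hS hf hb q k s u : Y → ℝ) y
  set S' := ∑ k ∈ Ico 1 (q - 1), (kA c hS hf hb q k s' u' : Y → ℝ) y
  set a := xA c T f s u (p y)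
  set a' := xA c T f s' u' (p y)
  have hE : |(a - a') - (S - S')| ≤ R + R' := by
    have e : (a - a') - (S - S') = (a - S) - (a' - S') := by ring
    rw [e]
    exact (abs_sub _ _).trans (add_le_add h1 h2)
  have hE2 : ((a - a') - (S - S')) ^ 2 ≤ 2 * (R + R') := by
    have h3 : ((a - a') - (S - S')) ^ 2 ≤ (R + R') ^ 2 := sq_le_sq' (abs_le.mp hE).1 (abs_le.mp hE).2
    nlinarith
  have hS2 : (S - S') ^ 2 ≤ q * ∑ k ∈ Ico 1 (q - 1),
      ((kA c hS hf hb q k s u - kA c hS hf hb q k s' u' : BM Y) : Y → ℝ) y ^ 2 := by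
    have e : S - S' = ∑ k ∈ Ico 1 (q - 1),
        ((kA c hS hf hb q k s u - kA c hS hf hb q k s' u' : BM Y) : Y → ℝ) y := by
      rw [← Finset.sum_sub_distrib]
      rfl
    rw [e]
    have h4 := sq_sum_le_card_mul_sum_sq (s := Ico 1 (q - 1))
      (f := fun k => ((kA c hS hf hb q k s u - kA c hS hf hb q k s' u' : BM Y) : Y → ℝ) y)
    refine h4.trans (mul_le_mul_of_nonneg_right ?_ (Finset.sum_nonneg fun k _ => sq_nonneg _))
    rw [Nat.card_Ico]
    exact_mod_cast (by omega : q - 1 - 1 ≤ q)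
  have h5 : (a - a') ^ 2 ≤ 2 * (S - S') ^ 2 + 2 * ((a - a') - (S - S')) ^ 2 := by
    nlinarith [sq_nonneg ((S - S') - ((a - a') - (S - S')))]
  linarith

lemma xA_meas {f : Fin ℓ → X → ℝ} (hf : ∀ i, Measurable (f i)) (s : Finset ℕ) (u : ℕ → ℝ) :
    Measurable (xA c T f s u) := by
  unfold xA av ph
  simp only [smul_eq_mul]
  exact (Finset.measurable_sum _ fun m _ => Finset.measurable_prod _ fun i _ =>
    (hf i).comp (meas_zpow T _)).const_mul _

lemma xA_abs {f : Fin ℓ → X → ℝ} (hb : ∀ i x, |f i x| ≤ 1) (s : Finset ℕ) (u : ℕ → ℝ) (x : X) :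
    |xA c T f s u x| ≤ 1 := by
  unfold xA
  exact abs_av_le' zero_le_one (fun m _ => ph_abs c hb _ _)

/-- the integral over the window -/
lemma window (hS : IsSusp μ T F th p) {f : Fin ℓ → X → ℝ} (hf : ∀ i, Measurable (f i))
    (hb : ∀ i x, |f i x| ≤ 1) {L : ℕ} (hL : ∀ i, |c i| ≤ L) {q : ℕ} (hq : 3 * L + 2 ≤ q)
    (hq2 : 2 ≤ q) (s s' : Finset ℕ) (u u' : ℕ → ℝ) (N N' : ℕ)
    (hN : 1 ≤ N) (hN' : 1 ≤ N') (hG : 2 * (q : ℝ) / 2 ^ N ≤ 1 / q) (hG' : 2 * (q : ℝ) / 2 ^ N' ≤ 1 / q) :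
    1 / q * ∫ x, (xA c T f s u x - xA c T f s' u' x) ^ 2 ∂μ ≤
      2 * q * ∑ k ∈ Ico 1 (q - 1), I ν ((kA c hS hf hb q k s u - kA c hS hf hb q k s' u') ^ 2) +
        4 * (I ν (babs (rA hS hq2 s u - gB hS hq2 N)) + I ν (babs (rA hS hq2 s' u' - gB hS hq2 N'))) +
        32 / q * (1 / q) := by
  have hq' : (2 : ℝ) ≤ q := by exact_mod_cast hq2
  have hq0 : (0 : ℝ) < q := by linarith
  have hd0 : (0 : ℝ) ≤ 1 / q := by positivity
  have hd1 : (1 : ℝ) / q ≤ 1 := by rw [div_le_one hq0]; linarith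
  have hm : Measurable (fun x => (xA c T f s u x - xA c T f s' u' x) ^ 2) :=
    ((xA_meas c hf s u).sub (xA_meas c hf s' u')).pow_const 2
  have hD : ∀ x, |(xA c T f s u x - xA c T f s' u' x) ^ 2| ≤ 4 := by
    intro x
    have h1 := abs_le.mp (xA_abs (T := T) c hb s u x)
    have h2 := abs_le.mp (xA_abs (T := T) c hb s' u' x)
    rw [abs_of_nonneg (sq_nonneg _)]
    nlinarith [h1.1, h1.2, h2.1, h2.2]
  rw [← hS.win _ hm ⟨4, hD⟩ _ hd0 hd1]
  have hw : Measurable (fun y => if th y < 1 / (q : ℝ) then (1 : ℝ) else 0) :=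
    Measurable.ite (measurableSet_lt hS.mth measurable_const) measurable_const measurable_const
  have hwi : Integrable (fun y => if th y < 1 / (q : ℝ) then (1 : ℝ) else 0) ν :=
    Integrable.of_bound hw.aestronglyMeasurable 1 (Filter.Eventually.of_forall fun y => by
      rw [Real.norm_eq_abs]
      split_ifs <;> simp)
  set B : BM Y := (2 * (q : ℝ)) • (∑ k ∈ Ico 1 (q - 1), (kA c hS hf hb q k s u - kA c hS hf hb q k s' u') ^ 2) +
    (4 : ℝ) • (babs (rA hS hq2 s u - gB hS hq2 N) + babs (rA hS hq2 s' u' - gB hS hq2 N')) with hB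
  have hBI : I ν B = 2 * q * ∑ k ∈ Ico 1 (q - 1), I ν ((kA c hS hf hb q k s u - kA c hS hf hb q k s' u') ^ 2) +
        4 * (I ν (babs (rA hS hq2 s u - gB hS hq2 N)) + I ν (babs (rA hS hq2 s' u' - gB hS hq2 N'))) := by
    rw [hB, map_add, map_smul, map_smul, map_sum, map_add, smul_eq_mul, smul_eq_mul]
  have hBy : ∀ y, (B : Y → ℝ) y = 2 * q * ∑ k ∈ Ico 1 (q - 1),
      ((kA c hS hf hb q k s u - kA c hS hf hb q k s' u' : BM Y) : Y → ℝ) y ^ 2 +
      4 * (|(rA hS hq2 s u : Y → ℝ) y - (gB hS hq2 N : Y → ℝ) y| +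
        |(rA hS hq2 s' u' : Y → ℝ) y - (gB hS hq2 N' : Y → ℝ) y|) := by
    intro y
    rw [hB, BM.add_ap, BM.smul_ap, BM.smul_ap, BM.sum_ap, BM.add_ap, babs_ap, babs_ap, BM.sub_ap, BM.sub_ap]
    rfl
  have hB0 : ∀ y, 0 ≤ (B : Y → ℝ) y := by
    intro y
    rw [hBy]
    have := Finset.sum_nonneg (s := Ico 1 (q - 1))
      (f := fun k => ((kA c hS hf hb q k s u - kA c hS hf hb q k s' u' : BM Y) : Y → ℝ) y ^ 2)
      (fun k _ => sq_nonneg _)
    positivity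
  have hle : ∫ y, (if th y < 1 / (q : ℝ) then (xA c T f s u (p y) - xA c T f s' u' (p y)) ^ 2 else 0) ∂ν ≤
      ∫ y, ((B : Y → ℝ) y + 32 / q * (if th y < 1 / (q : ℝ) then (1 : ℝ) else 0)) ∂ν := by
    apply integral_mono
    · refine Integrable.of_bound ?_ 4 (Filter.Eventually.of_forall fun y => ?_)
      · exact (Measurable.ite (measurableSet_lt hS.mth measurable_const) (hm.comp hS.mp)
          measurable_const).aestronglyMeasurable
      · rw [Real.norm_eq_abs]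
        split_ifs with h
        · exact hD (p y)
        · simp
    · exact (bint ν B).add (hwi.const_mul _)
    · intro y
      by_cases h : th y < 1 / (q : ℝ)
      · simp only [if_pos h, mul_one]
        have h1 := xq_dec c hS hf hb hL hq hq2 s s' u u' y h
        rw [hBy]
        have h2 := gB_le hS hq2 hN y
        have h3 := gB_le hS hq2 hN' y
        have h4 := le_abs_self ((rA hS hq2 s u : Y → ℝ) y - (gB hS hq2 N : Y → ℝ) y)
        have h5 := le_abs_self ((rA hS hq2 s' u' : Y → ℝ) y - (gB hS hq2 N' : Y → ℝ) y)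
        have e3 : (3 : ℝ) / q = 3 * (1 / q) := by ring
        have e32 : (32 : ℝ) / q = 32 * (1 / q) := by ring
        rw [e3] at h2 h3
        rw [e32]
        linarith
      · simp only [if_neg h, mul_zero, add_zero]
        exact hB0 y
  refine hle.trans (le_of_eq ?_)
  rw [integral_add (bint ν B) (hwi.const_mul _), integral_const_mul, win_one hS hd0 hd1, ← I_def, hBI]

/-- The common core: small averages on the suspension give small averages on `X`. -/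
theorem core (hS : IsSusp μ T F th p) {f : Fin ℓ → X → ℝ} (hf : ∀ i, Measurable (f i))
    (hb : ∀ i x, |f i x| ≤ 1) {L : ℕ} (hL : ∀ i, |c i| ≤ L) {ε : ℝ} {q : ℕ}
    (hq : 3 * L + 2 ≤ q) (hq2 : 2 ≤ q) (hqe : 64 ≤ ε * q)
    (s s' : Finset ℕ) (u u' : ℕ → ℝ) (N N' : ℕ)
    (hN : 1 ≤ N) (hN' : 1 ≤ N') (hG : 2 * (q : ℝ) / 2 ^ N ≤ 1 / q) (hG' : 2 * (q : ℝ) / 2 ^ N' ≤ 1 / q)
    (hk : ∀ k ∈ Ico 1 (q - 1),
      I ν ((kA c hS hf hb q k s u - kA c hS hf hb q k s' u') ^ 2) ≤ ε / (8 * q ^ 3))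
    (hr : I ν (babs (rA hS hq2 s u - gB hS hq2 N)) ≤ ε / (32 * q))
    (hr' : I ν (babs (rA hS hq2 s' u' - gB hS hq2 N')) ≤ ε / (32 * q)) :
    ∫ x, (xA c T f s u x - xA c T f s' u' x) ^ 2 ∂μ ≤ ε := by
  have hqr : (2 : ℝ) ≤ q := by exact_mod_cast hq2
  have hqp : (0 : ℝ) < q := by linarith
  have hε : 0 < ε := by
    by_contra hcon
    have : ε * q ≤ 0 := mul_nonpos_of_nonpos_of_nonneg (not_lt.mp hcon) hqp.le
    linarith
  have hw := window c hS hf hb hL hq hq2 s s' u u' N N' hN hN' hG hG'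
  have hs : ∑ k ∈ Ico 1 (q - 1), I ν ((kA c hS hf hb q k s u - kA c hS hf hb q k s' u') ^ 2) ≤
      q * (ε / (8 * q ^ 3)) := by
    have h3 := Finset.sum_le_card_nsmul (Ico 1 (q - 1))
      (fun k => I ν ((kA c hS hf hb q k s u - kA c hS hf hb q k s' u') ^ 2)) (ε / (8 * q ^ 3)) hk
    refine h3.trans ?_
    rw [nsmul_eq_mul, Nat.card_Ico]
    refine mul_le_mul_of_nonneg_right ?_ (by positivity)
    exact_mod_cast (by omega : q - 1 - 1 ≤ q)
  have h6 : 1 / (q : ℝ) * ∫ x, (xA c T f s u x - xA c T f s' u' x) ^ 2 ∂μ ≤ 1 / q * ε := by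
    refine hw.trans ?_
    have h7 : 2 * (q : ℝ) * (q * (ε / (8 * q ^ 3))) + 4 * (ε / (32 * q) + ε / (32 * q)) + 32 / q * (1 / q) ≤ 1 / q * ε := by
      have e1 : 2 * (q : ℝ) * (q * (ε / (8 * q ^ 3))) = ε / (4 * q) := by
        field_simp
        ring
      have e2 : 4 * (ε / (32 * q) + ε / (32 * q)) = ε / (4 * (q : ℝ)) := by
        field_simp
        ring
      have e3 : 32 / (q : ℝ) * (1 / q) ≤ ε / (2 * q) := by
        rw [div_mul_div_comm, div_le_div_iff₀ (by positivity) (by positivity)]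
        nlinarith
      have e4 : 1 / (q : ℝ) * ε = ε / (4 * q) + ε / (4 * q) + ε / (2 * q) := by
        field_simp
        ring
      rw [e1, e2, e4]
      linarith
    have h8 : 2 * (q : ℝ) * ∑ k ∈ Ico 1 (q - 1), I ν ((kA c hS hf hb q k s u - kA c hS hf hb q k s' u') ^ 2) ≤
        2 * q * (q * (ε / (8 * q ^ 3))) := mul_le_mul_of_nonneg_left hs (by positivity)
    linarith
  exact le_of_mul_le_mul_left h6 (by positivity)

end av

end Pool.Agent.H60.NSIns
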