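import Pool.Agent.H60.NSIns.Gen
import Pool.Agent.H63.NS.Main

/-!
MP_3ea55a_an, general integer coefficients: the averages along `[n sin n]` are Cauchy, and they are
close to the averages along `n`.
-/

set_option autoImplicit false
set_option linter.unusedSectionVars false

open MeasureTheory Finset
open scoped BigOperators

namespace Pool.Agent.H60.NSIns

open Pool.Agent.H63.NS Pool.Agent.H62.NS

variable {X Y : Type} [MeasurableSpace X] [MeasurableSpace Y] {ν : Measure Y}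
    [IsProbabilityMeasure ν] {μ : Measure X} [IsProbabilityMeasure μ] {T : X ≃ᵐ X} {F : Flow ν} {th : Y → ℝ} {p : Y → X}

variable {ℓ : ℕ} (c : Fin ℓ → ℤ)

/-- a bound for the coefficients -/
def bd (c : Fin ℓ → ℤ) : ℕ := ∑ i, (c i).natAbs

lemma bd_le (i : Fin ℓ) : |c i| ≤ (bd c : ℤ) := by
  have h : (c i).natAbs ≤ bd c :=
    Finset.single_le_sum (f := fun i => (c i).natAbs) (fun _ _ => Nat.zero_le _) (Finset.mem_univ i)
  rw [Int.abs_eq_natAbs]
  exact_mod_cast h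

lemma exists_q (L : ℕ) {ε : ℝ} (hε : 0 < ε) : ∃ q : ℕ, 3 * L + 2 ≤ q ∧ 2 ≤ q ∧ 64 ≤ ε * q := by
  obtain ⟨q0, hq0⟩ := exists_nat_ge (64 / ε)
  refine ⟨max q0 (3 * L + 2), le_max_right _ _, ?_, ?_⟩
  · exact (by omega : 2 ≤ 3 * L + 2).trans (le_max_right _ _)
  · have hqe : 64 / ε ≤ ((max q0 (3 * L + 2) : ℕ) : ℝ) := hq0.trans (by exact_mod_cast le_max_left _ _)
    rw [div_le_iff₀ hε] at hqe
    linarith

lemma pow_small {q N : ℕ} (hq : 2 ≤ q) (hN : 2 * q ^ 2 ≤ N) : 2 * (q : ℝ) / 2 ^ N ≤ 1 / q := by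
  have hqp : (0 : ℝ) < q := by
    have : (2 : ℝ) ≤ q := by exact_mod_cast hq
    linarith
  have h2 : (2 * (q : ℝ) ^ 2) ≤ 2 ^ N := by
    have h3 : (N : ℝ) ≤ 2 ^ N := by exact_mod_cast (Nat.lt_two_pow_self).le
    have h4 : ((2 * q ^ 2 : ℕ) : ℝ) ≤ N := by exact_mod_cast hN
    push_cast at h4
    linarith
  rw [div_le_div_iff₀ (by positivity) hqp]
  nlinarith

/-- the averages of the remainder are close to the grid averages -/
lemma rA_small (hS : IsSusp μ T F th p) (hPM : PetMain F) {q : ℕ} (hq2 : 2 ≤ q) {δ : ℝ} (hδ : 0 < δ) :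
    ∃ M : ℕ, ∀ N ≥ M, I ν (babs (rA hS hq2 (range N) un - gB hS hq2 N)) ≤ δ := by
  obtain ⟨M2, hM2⟩ := hPM 1 (fun _ => 1) (fun _ => rB hS hq2) (fun _ => good_rB hS hq2) (δ ^ 2)
    (by positivity)
  refine ⟨M2, fun N hN => ?_⟩
  apply I_babs_le _ hδ.le
  have h := hM2 N hN
  have e1 : av (range N) (fun m => ∏ j : Fin 1, F.T (((1 : ℤ) : ℝ) * ((m : ℝ) * Real.sin m)) (rB hS hq2)) =
      rA hS hq2 (range N) un := by
    unfold rA
    apply av_congr
    intro m _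
    rw [Fin.prod_univ_one]
    congr 1
    unfold un
    push_cast
    rw [one_mul]
  have e2 : av (range (N ^ 2 * 2 ^ N)) (fun m => ∏ j : Fin 1, F.T (((1 : ℤ) : ℝ) * ((m : ℝ) / 2 ^ N)) (rB hS hq2)) =
      gB hS hq2 N := by
    unfold gB
    apply av_congr
    intro m _
    rw [Fin.prod_univ_one]
    congr 1
    push_cast
    rw [one_mul]
  rw [e1, e2] at h
  exact h

/-- a bound valid for all `k` at once -/
lemma sup_bound {q : ℕ} {P : ℕ → ℕ → Prop} (h : ∀ k ∈ Ico 1 (q - 1), ∃ M : ℕ, ∀ N ≥ M, P k N) :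
    ∃ M : ℕ, ∀ N ≥ M, ∀ k ∈ Ico 1 (q - 1), P k N := by
  have h1 : ∀ k : ℕ, ∃ M : ℕ, k ∈ Ico 1 (q - 1) → ∀ N ≥ M, P k N := by
    intro k
    by_cases hk : k ∈ Ico 1 (q - 1)
    · obtain ⟨M, hM⟩ := h k hk
      exact ⟨M, fun _ => hM⟩
    · exact ⟨0, fun h => absurd h hk⟩
  choose Mk hMk using h1
  exact ⟨(Ico 1 (q - 1)).sup Mk, fun N hN k hk => hMk k hk N ((Finset.le_sup hk).trans hN)⟩

/-- the averages along `n sin n` are Cauchy -/
theorem xA_cauchy (hS : IsSusp μ T F th p) (hPM : PetMain F) (hFC : FlowCauchy F) {f : Fin ℓ → X → ℝ}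
    (hf : ∀ i, Measurable (f i)) (hb : ∀ i x, |f i x| ≤ 1) (ε : ℝ) (hε : 0 < ε) :
    ∃ M : ℕ, ∀ N ≥ M, ∀ N' ≥ M,
      ∫ x, (xA c T f (range N) un x - xA c T f (range N') un x) ^ 2 ∂μ ≤ ε := by
  obtain ⟨q, hq, hq2, hqe⟩ := exists_q (bd c) hε
  have hqp : (0 : ℝ) < q := by
    have : (2 : ℝ) ≤ q := by exact_mod_cast hq2
    linarith
  obtain ⟨M1, hM1⟩ := sup_bound (q := q) (P := fun k M => ∀ N ≥ M, ∀ N' ≥ M,
      I ν ((kA c hS hf hb q k (range N) un - kA c hS hf hb q k (range N') un) ^ 2) ≤ ε / (8 * q ^ 3)) (by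
    intro k hk
    rw [Finset.mem_Ico] at hk
    obtain ⟨M, hM⟩ := hFC (ℓ + 1) (ec c) (fc c hS hf hb q k) (good_fc c hS hf hb (by omega))
      (ε / (8 * q ^ 3)) (by positivity)
    exact ⟨M, fun K hK N hN N' hN' => hM N (hK.trans hN) N' (hK.trans hN')⟩)
  obtain ⟨M2, hM2⟩ := rA_small hS hPM hq2 (δ := ε / (32 * q)) (by positivity)
  refine ⟨max (max M1 M2) (max 1 (2 * q ^ 2)), fun N hN N' hN' => ?_⟩
  have hN1 : M1 ≤ N := ((le_max_left _ _).trans (le_max_left _ _)).trans hN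
  have hN2 : M2 ≤ N := ((le_max_right _ _).trans (le_max_left _ _)).trans hN
  have hN3 : 1 ≤ N := ((le_max_left _ _).trans (le_max_right _ _)).trans hN
  have hN4 : 2 * q ^ 2 ≤ N := ((le_max_right _ _).trans (le_max_right _ _)).trans hN
  have hN1' : M1 ≤ N' := ((le_max_left _ _).trans (le_max_left _ _)).trans hN'
  have hN2' : M2 ≤ N' := ((le_max_right _ _).trans (le_max_left _ _)).trans hN'
  have hN3' : 1 ≤ N' := ((le_max_left _ _).trans (le_max_right _ _)).trans hN'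
  have hN4' : 2 * q ^ 2 ≤ N' := ((le_max_right _ _).trans (le_max_right _ _)).trans hN'
  exact core c hS hf hb (bd_le c) hq hq2 hqe (range N) (range N') un un N N' hN3 hN3'
    (pow_small hq2 hN4) (pow_small hq2 hN4') (fun k hk => hM1 M1 le_rfl k hk N hN1 N' hN1')
    (hM2 N hN2) (hM2 N' hN2')

/-- the averages along `n sin n` are close to the grid averages -/
theorem xA_grid (hS : IsSusp μ T F th p) (hPM : PetMain F) {f : Fin ℓ → X → ℝ}
    (hf : ∀ i, Measurable (f i)) (hb : ∀ i x, |f i x| ≤ 1) (ε : ℝ) (hε : 0 < ε) :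
    ∃ M : ℕ, ∀ N ≥ M,
      ∫ x, (xA c T f (range N) un x -
        xA c T f (range (N ^ 2 * 2 ^ N)) (fun m => (m : ℝ) / 2 ^ N) x) ^ 2 ∂μ ≤ ε := by
  obtain ⟨q, hq, hq2, hqe⟩ := exists_q (bd c) hε
  have hqp : (0 : ℝ) < q := by
    have : (2 : ℝ) ≤ q := by exact_mod_cast hq2
    linarith
  obtain ⟨M1, hM1⟩ := sup_bound (q := q) (P := fun k N =>
      I ν ((kA c hS hf hb q k (range N) un -
        kA c hS hf hb q k (range (N ^ 2 * 2 ^ N)) (fun m => (m : ℝ) / 2 ^ N)) ^ 2) ≤ ε / (8 * q ^ 3)) (by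
    intro k hk
    rw [Finset.mem_Ico] at hk
    exact hPM (ℓ + 1) (ec c) (fc c hS hf hb q k) (good_fc c hS hf hb (by omega))
      (ε / (8 * q ^ 3)) (by positivity))
  obtain ⟨M2, hM2⟩ := rA_small hS hPM hq2 (δ := ε / (32 * q)) (by positivity)
  refine ⟨max (max M1 M2) (max 1 (2 * q ^ 2)), fun N hN => ?_⟩
  have hN1 : M1 ≤ N := ((le_max_left _ _).trans (le_max_left _ _)).trans hN
  have hN2 : M2 ≤ N := ((le_max_right _ _).trans (le_max_left _ _)).trans hN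
  have hN3 : 1 ≤ N := ((le_max_left _ _).trans (le_max_right _ _)).trans hN
  have hN4 : 2 * q ^ 2 ≤ N := ((le_max_right _ _).trans (le_max_right _ _)).trans hN
  refine core c hS hf hb (bd_le c) hq hq2 hqe (range N) (range (N ^ 2 * 2 ^ N)) un
    (fun m => (m : ℝ) / 2 ^ N) N N hN3 hN3
    (pow_small hq2 hN4) (pow_small hq2 hN4) (fun k hk => hM1 N hN1 k hk) (hM2 N hN2) ?_
  have e : rA hS hq2 (range (N ^ 2 * 2 ^ N)) (fun m => (m : ℝ) / 2 ^ N) = gB hS hq2 N := rfl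
  rw [e]
  apply I_babs_le _ (by positivity)
  have e0 : (gB hS hq2 N - gB hS hq2 N) ^ 2 = 0 := by
    rw [sub_self]
    exact zero_pow two_ne_zero
  rw [e0, map_zero]
  positivity

lemma sum_block {D : ℕ} (hD : 0 < D) (g : ℕ → ℝ) (K : ℕ) :
    ∑ m ∈ range (K * D), g (m / D) = D * ∑ m ∈ range K, g m := by
  induction K with
  | zero => simp
  | succ K ih =>
    rw [Nat.succ_mul, Finset.sum_range_add, ih, Finset.sum_range_succ, mul_add]
    congr 1
    have : ∀ i ∈ range D, g ((K * D + i) / D) = g K := by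
      intro i hi
      rw [Finset.mem_range] at hi
      congr 1
      rw [mul_comm K D, Nat.mul_add_div hD, Nat.div_eq_of_lt hi, add_zero]
    rw [Finset.sum_congr rfl this, Finset.sum_const, Finset.card_range, nsmul_eq_mul]

lemma av_block {D : ℕ} (hD : 0 < D) (g : ℕ → ℝ) (K : ℕ) :
    av (range (K * D)) (fun m => g (m / D)) = av (range K) g := by
  unfold av
  rw [Finset.card_range, Finset.card_range, smul_eq_mul, smul_eq_mul, sum_block hD g K]
  rcases Nat.eq_zero_or_pos K with h | h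
  · subst h; simp
  · have h1 : (K : ℝ) ≠ 0 := by positivity
    have h2 : (D : ℝ) ≠ 0 := by positivity
    push_cast
    field_simp

lemma ph_floor (T : X ≃ᵐ X) (f : Fin ℓ → X → ℝ) (m N : ℕ) (x : X) :
    ph T c f ((m : ℝ) / 2 ^ N) x = ph T c f ((m / 2 ^ N : ℕ) : ℝ) x := by
  have h : ⌊(m : ℝ) / 2 ^ N⌋ = ⌊((m / 2 ^ N : ℕ) : ℝ)⌋ := by
    rw [Int.floor_natCast]
    have h1 : ⌊(m : ℝ) / ((2 ^ N : ℕ) : ℝ)⌋₊ = m / 2 ^ N := Nat.floor_div_eq_div m (2 ^ N)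
    have h2 : (0 : ℝ) ≤ (m : ℝ) / ((2 ^ N : ℕ) : ℝ) := by positivity
    have h3 := Int.natCast_floor_eq_floor h2
    rw [h1] at h3
    push_cast at h3 ⊢
    exact h3.symm
  unfold ph
  rw [h]

/-- the linear averages -/
noncomputable def lin (T : X ≃ᵐ X) (f : Fin ℓ → X → ℝ) (N : ℕ) (x : X) : ℝ :=
  av (range N) (fun m => ph T c f (m : ℝ) x)

lemma grid_eq (T : X ≃ᵐ X) (f : Fin ℓ → X → ℝ) (N : ℕ) (x : X) :
    xA c T f (range (N ^ 2 * 2 ^ N)) (fun m => (m : ℝ) / 2 ^ N) x = lin c T f (N ^ 2) x := by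
  unfold xA lin
  rw [← av_block (by positivity : 0 < 2 ^ N) (fun m => ph T c f (m : ℝ) x) (N ^ 2)]
  exact av_congr fun m _ => ph_floor c T f m N x

lemma av_close {g : ℕ → ℝ} (hg : ∀ n, |g n| ≤ 1) {K M : ℕ} (hK : 0 < K) (hKM : K ≤ M) :
    |av (range M) g - av (range K) g| ≤ 2 * ((M : ℝ) - K) / M := by
  have hM : 0 < M := lt_of_lt_of_le hK hKM
  have hM' : (0 : ℝ) < M := by exact_mod_cast hM
  have hK' : (0 : ℝ) < K := by exact_mod_cast hK
  have hKM' : (K : ℝ) ≤ M := by exact_mod_cast hKM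
  obtain ⟨r, rfl⟩ := Nat.exists_eq_add_of_le hKM
  have h1 : |∑ m ∈ range K, g m| ≤ K := by
    refine (Finset.abs_sum_le_sum_abs _ _).trans ?_
    refine (Finset.sum_le_card_nsmul _ _ 1 (fun m _ => hg m)).trans ?_
    rw [Finset.card_range, nsmul_eq_mul, mul_one]
  have h2 : |∑ m ∈ range r, g (K + m)| ≤ r := by
    refine (Finset.abs_sum_le_sum_abs _ _).trans ?_
    refine (Finset.sum_le_card_nsmul _ _ 1 (fun m _ => hg _)).trans ?_
    rw [Finset.card_range, nsmul_eq_mul, mul_one]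
  unfold av
  rw [Finset.card_range, Finset.card_range, smul_eq_mul, smul_eq_mul, Finset.sum_range_add]
  set A := ∑ m ∈ range K, g m with hA
  set B := ∑ m ∈ range r, g (K + m) with hB
  have e : ((K + r : ℕ) : ℝ)⁻¹ * (A + B) - (K : ℝ)⁻¹ * A = (B - r * A / K) / ((K + r : ℕ) : ℝ) := by
    push_cast at *
    field_simp
    ring
  rw [e, abs_div, abs_of_pos hM', div_le_div_iff_of_pos_right hM']
  have h3 : |(r : ℝ) * A / K| ≤ r := by
    rw [abs_div, abs_mul, abs_of_nonneg (Nat.cast_nonneg r), abs_of_pos hK', div_le_iff₀ hK']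
    exact mul_le_mul_of_nonneg_left h1 (Nat.cast_nonneg r)
  refine (abs_sub _ _).trans ?_
  push_cast
  linarith

lemma lin_close (T : X ≃ᵐ X) {f : Fin ℓ → X → ℝ} (hb : ∀ i x, |f i x| ≤ 1) {N : ℕ} (hN : 1 ≤ N) (x : X) :
    |lin c T f N x - lin c T f (N.sqrt ^ 2) x| ≤ 4 / N.sqrt := by
  have hs : 0 < N.sqrt := Nat.sqrt_pos.mpr hN
  have h1 : N.sqrt ^ 2 ≤ N := Nat.sqrt_le' N
  have h2 := av_close (g := fun m => ph T c f (m : ℝ) x) (fun n => ph_abs c hb _ _)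
    (by positivity : 0 < N.sqrt ^ 2) h1
  refine h2.trans ?_
  have h3 : N ≤ N.sqrt * N.sqrt + N.sqrt + N.sqrt := Nat.sqrt_le_add N
  have h3' : (N : ℝ) ≤ (N.sqrt : ℝ) * N.sqrt + N.sqrt + N.sqrt := by exact_mod_cast h3
  have h1' : ((N.sqrt : ℝ)) ^ 2 ≤ N := by exact_mod_cast h1
  have hs' : (0 : ℝ) < N.sqrt := by exact_mod_cast hs
  have hN' : (0 : ℝ) < N := by exact_mod_cast hN
  rw [div_le_div_iff₀ hN' hs']
  push_cast
  nlinarith

lemma lin_abs (T : X ≃ᵐ X) {f : Fin ℓ → X → ℝ} (hb : ∀ i x, |f i x| ≤ 1) (N : ℕ) (x : X) :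
    |lin c T f N x| ≤ 1 := by
  unfold lin
  exact abs_av_le' zero_le_one (fun m _ => ph_abs c hb _ _)

end Pool.Agent.H60.NSIns
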