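import Pool.Agent.H60.NSIns.Gen2

/-!
MP_3ea55a_an, general integer coefficients: the averages along `[n sin n]` over `1, …, N` are
Cauchy and close to the averages along `n`, for real bounded functions on systems in `Type`.
-/

set_option autoImplicit false
set_option linter.unusedSectionVars false

open MeasureTheory Finset
open scoped BigOperators

namespace Pool.Agent.H60.NSIns

open Pool.Agent.H63.NS Pool.Agent.H62.NS

/-- the sequence -/
noncomputable def sn (n : ℕ) : ℤ := ⌊(n : ℝ) * Real.sin (n : ℝ)⌋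

/-- the linear sequence -/
def idn (n : ℕ) : ℤ := n

variable {X Y : Type} [MeasurableSpace X] [MeasurableSpace Y] {ν : Measure Y}
    [IsProbabilityMeasure ν] {μ : Measure X} [IsProbabilityMeasure μ] {T : X ≃ᵐ X} {F : Flow ν} {th : Y → ℝ} {p : Y → X}

variable {ℓ : ℕ} (c : Fin ℓ → ℤ)

lemma ends_small {g0 gN : ℝ} (h0 : |g0| ≤ 1) (hN : |gN| ≤ 1) (N : ℕ) :
    |1 / (N : ℝ) * (gN - g0)| ≤ 2 / N := by
  have a := abs_le.mp h0
  have b := abs_le.mp hN
  rw [abs_mul, abs_of_nonneg (by positivity : (0 : ℝ) ≤ 1 / N)]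
  have h : |gN - g0| ≤ 2 := abs_le.mpr ⟨by linarith [a.2, b.1], by linarith [a.1, b.2]⟩
  calc 1 / (N : ℝ) * |gN - g0| ≤ 1 / N * 2 := mul_le_mul_of_nonneg_left h (by positivity)
    _ = 2 / N := by ring

lemma sn_close (T : X ≃ᵐ X) {f : Fin ℓ → X → ℝ} (hb : ∀ i x, |f i x| ≤ 1) (N : ℕ) (x : X) :
    |rav T sn c f N x - xA c T f (range N) un x| ≤ 2 / N := by
  have e : rav T sn c f N x = xA c T f (range N) un x +
      1 / N * (ph T c f (un N) x - ph T c f (un 0) x) :=
    Icc_av (fun n => ph T c f (un n) x) N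
  rw [e, add_sub_cancel_left]
  exact ends_small (ph_abs c hb _ _) (ph_abs c hb _ _) N

lemma idn_close (T : X ≃ᵐ X) {f : Fin ℓ → X → ℝ} (hb : ∀ i x, |f i x| ≤ 1) (N : ℕ) (x : X) :
    |rav T idn c f N x - lin c T f N x| ≤ 2 / N := by
  have e : rav T idn c f N x = lin c T f N x +
      1 / N * (ph T c f ((N : ℕ) : ℝ) x - ph T c f ((0 : ℕ) : ℝ) x) := by
    unfold lin
    rw [← Icc_av (fun n => ph T c f ((n : ℕ) : ℝ) x) N]
    unfold rav ph idn
    simp only [Int.floor_natCast]
  rw [e, add_sub_cancel_left]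
  exact ends_small (ph_abs c hb _ _) (ph_abs c hb _ _) N

lemma comb {h u v : X → ℝ} {δ : ℝ} (hh : Integrable (fun x => h x ^ 2) μ)
    (hu : Integrable (fun x => u x ^ 2) μ) (hv : Integrable (fun x => v x ^ 2) μ)
    (hpt : ∀ x, |h x - (u x + v x)| ≤ δ) :
    ∫ x, h x ^ 2 ∂μ ≤ 3 * ∫ x, u x ^ 2 ∂μ + 3 * ∫ x, v x ^ 2 ∂μ + 3 * δ ^ 2 := by
  have hle : ∫ x, h x ^ 2 ∂μ ≤ ∫ x, (3 * u x ^ 2 + 3 * v x ^ 2 + 3 * δ ^ 2) ∂μ := by
    refine integral_mono hh (((hu.const_mul 3).add (hv.const_mul 3)).add (integrable_const _)) ?_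
    intro x
    have h1 := hpt x
    have h2 : (h x - (u x + v x)) ^ 2 ≤ δ ^ 2 := sq_le_sq' (abs_le.mp h1).1 (abs_le.mp h1).2
    beta_reduce
    nlinarith [sq_nonneg (u x - v x), sq_nonneg (u x - (h x - (u x + v x))),
      sq_nonneg (v x - (h x - (u x + v x)))]
  have hsum : Integrable (fun x => 3 * u x ^ 2 + 3 * v x ^ 2) μ :=
    (hu.const_mul 3).add (hv.const_mul 3)
  have e1 : ∫ x, (3 * u x ^ 2 + 3 * v x ^ 2 + 3 * δ ^ 2) ∂μ =
      ∫ x, (3 * u x ^ 2 + 3 * v x ^ 2) ∂μ + ∫ _x, (3 * δ ^ 2) ∂μ :=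
    integral_add hsum (integrable_const _)
  have e2 : ∫ x, (3 * u x ^ 2 + 3 * v x ^ 2) ∂μ = ∫ x, 3 * u x ^ 2 ∂μ + ∫ x, 3 * v x ^ 2 ∂μ :=
    integral_add (hu.const_mul 3) (hv.const_mul 3)
  rw [e1, e2, integral_const_mul, integral_const_mul] at hle
  simpa using hle

lemma sq_int {g : X → ℝ} (hg : Measurable g) {C : ℝ} (hC : ∀ x, |g x| ≤ C) :
    Integrable (fun x => g x ^ 2) μ := by
  refine Integrable.of_bound (hg.pow_const 2).aestronglyMeasurable (C ^ 2)
    (Filter.Eventually.of_forall fun x => ?_)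
  rw [Real.norm_eq_abs, abs_pow]
  exact pow_le_pow_left₀ (abs_nonneg _) (hC x) 2

lemma rav_one (T : X ≃ᵐ X) (a : ℕ → ℤ) {f : Fin ℓ → X → ℝ} (hb : ∀ i x, |f i x| ≤ 1) (N : ℕ) (x : X) :
    |rav T a c f N x| ≤ 1 := by
  unfold rav
  have h := abs_av_le' (s := Finset.Icc 1 N) (f := fun n => ∏ j : Fin ℓ, f j ((T.toEquiv ^ (c j * a n)) x))
    zero_le_one (fun m _ => by
      rw [Finset.abs_prod]
      exact Finset.prod_le_one (fun _ _ => abs_nonneg _) (fun i _ => hb i _))
  unfold av at h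
  rwa [Nat.card_Icc, Nat.add_sub_cancel, smul_eq_mul, ← one_div] at h

lemma sub_two {a b : ℝ} (ha : |a| ≤ 1) (hb : |b| ≤ 1) : |a - b| ≤ 2 :=
  (abs_sub _ _).trans (by linarith)

/-- Both statements, for functions bounded by one. -/
theorem both_one (hS : IsSusp μ T F th p) (hPM : PetMain F) (hFC : FlowCauchy F) {f : Fin ℓ → X → ℝ}
    (hf : ∀ i, Measurable (f i)) (hb : ∀ i x, |f i x| ≤ 1) (ε : ℝ) (hε : 0 < ε) :
    ∃ M : ℕ, (∀ N ≥ M, ∀ N' ≥ M, ∫ x, (rav T sn c f N x - rav T sn c f N' x) ^ 2 ∂μ ≤ ε) ∧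
      ∀ N ≥ M, ∫ x, (rav T sn c f N x - rav T idn c f N x) ^ 2 ∂μ ≤ ε := by
  obtain ⟨M1, hM1⟩ := xA_cauchy c hS hPM hFC hf hb (ε / 12) (by positivity)
  obtain ⟨M2, hM2⟩ := xA_grid c hS hPM hf hb (ε / 12) (by positivity)
  obtain ⟨K0, hK0⟩ := exists_nat_ge (400 / ε)
  set m : ℕ := max (max M1 M2) (max K0 1) with hm
  have hm1 : M1 ≤ m := (le_max_left _ _).trans (le_max_left _ _)
  have hm2 : M2 ≤ m := (le_max_right _ _).trans (le_max_left _ _)
  have hm3 : K0 ≤ m := (le_max_left _ _).trans (le_max_right _ _)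
  have hm4 : 1 ≤ m := (le_max_right _ _).trans (le_max_right _ _)
  -- the small quantity
  have hsmall : ∀ K : ℕ, m ≤ K → 3 * (8 / (K : ℝ)) ^ 2 ≤ ε / 2 := by
    intro K hK
    have h1 : (1 : ℝ) ≤ K := by exact_mod_cast hm4.trans hK
    have h2 : 400 / ε ≤ K := hK0.trans (by exact_mod_cast hm3.trans hK)
    rw [div_le_iff₀ hε] at h2
    have h3 : (0 : ℝ) < K := by linarith
    rw [div_pow, ← mul_div_assoc, div_le_div_iff₀ (by positivity) (by norm_num)]
    nlinarith [mul_le_mul_of_nonneg_left h1 (by positivity : (0 : ℝ) ≤ K * ε)]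
  have hinv : ∀ K N : ℕ, 1 ≤ K → K ≤ N → 2 / (N : ℝ) ≤ 2 / K := by
    intro K N hK hKN
    have h1 : (0 : ℝ) < K := by exact_mod_cast hK
    exact div_le_div_of_nonneg_left (by norm_num) h1 (by exact_mod_cast hKN)
  refine ⟨m ^ 2, fun N hN N' hN' => ?_, fun N hN => ?_⟩
  · have hmm : m ≤ m ^ 2 := Nat.le_self_pow two_ne_zero m
    have hNm : m ≤ N := hmm.trans hN
    have hNm' : m ≤ N' := hmm.trans hN'
    have h := comb (μ := μ) (h := fun x => rav T sn c f N x - rav T sn c f N' x)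
      (u := fun x => xA c T f (range N) un x - xA c T f (range N') un x) (v := fun _ => 0) (δ := 8 / m)
      (sq_int ((rav_meas T sn c hf N).sub (rav_meas T sn c hf N'))
        (fun x => sub_two (rav_one c T sn hb N x) (rav_one c T sn hb N' x)))
      (sq_int ((xA_meas c hf _ _).sub (xA_meas c hf _ _))
        (fun x => sub_two (xA_abs c hb _ _ x) (xA_abs c hb _ _ x)))
      (by simp)
      (fun x => by
        have a1 := sn_close c T hb N x
        have a2 := sn_close c T hb N' x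
        have a3 := hinv m N hm4 hNm
        have a4 := hinv m N' hm4 hNm'
        have e : rav T sn c f N x - rav T sn c f N' x -
            (xA c T f (range N) un x - xA c T f (range N') un x + 0) =
            (rav T sn c f N x - xA c T f (range N) un x) -
              (rav T sn c f N' x - xA c T f (range N') un x) := by ring
        rw [e]
        refine (abs_sub _ _).trans ?_
        have h8 : (8 : ℝ) / m = 4 * (2 / m) := by ring
        have h9 : (0 : ℝ) ≤ 2 / m := by positivity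
        rw [h8]
        linarith)
    have h1 := hM1 N (hm1.trans hNm) N' (hm1.trans hNm')
    have h2 := hsmall m le_rfl
    simp only [ne_eq, OfNat.ofNat_ne_zero, not_false_eq_true, zero_pow, integral_zero, mul_zero,
      add_zero] at h
    linarith
  · set K : ℕ := N.sqrt with hK
    have hmK : m ≤ K := by rw [hK, Nat.le_sqrt']; exact hN
    have hKN : K ≤ N := Nat.sqrt_le_self N
    have hNm : m ≤ N := hmK.trans hKN
    have hK1 : 1 ≤ K := hm4.trans hmK
    have h := comb (μ := μ) (h := fun x => rav T sn c f N x - rav T idn c f N x)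
      (u := fun x => xA c T f (range N) un x - xA c T f (range K) un x)
      (v := fun x => xA c T f (range K) un x -
        xA c T f (range (K ^ 2 * 2 ^ K)) (fun m => (m : ℝ) / 2 ^ K) x) (δ := 8 / K)
      (sq_int ((rav_meas T sn c hf N).sub (rav_meas T idn c hf N))
        (fun x => sub_two (rav_one c T sn hb N x) (rav_one c T idn hb N x)))
      (sq_int ((xA_meas c hf _ _).sub (xA_meas c hf _ _))
        (fun x => sub_two (xA_abs c hb _ _ x) (xA_abs c hb _ _ x)))
      (sq_int ((xA_meas c hf _ _).sub (xA_meas c hf _ _))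
        (fun x => sub_two (xA_abs c hb _ _ x) (xA_abs c hb _ _ x)))
      (fun x => by
        have a1 := sn_close c T hb N x
        have a2 := idn_close c T hb N x
        have a3 := hinv K N hK1 hKN
        have a4 := lin_close c T hb (hK1.trans hKN) x
        rw [grid_eq]
        have e : rav T sn c f N x - rav T idn c f N x -
            (xA c T f (range N) un x - xA c T f (range K) un x +
              (xA c T f (range K) un x - lin c T f (K ^ 2) x)) =
            (rav T sn c f N x - xA c T f (range N) un x) -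
              (rav T idn c f N x - lin c T f N x) - (lin c T f N x - lin c T f (K ^ 2) x) := by ring
        rw [e]
        refine (abs_sub _ _).trans ((add_le_add (abs_sub _ _) le_rfl).trans ?_)
        have h8 : (8 : ℝ) / K = 2 / K + 2 / K + 4 / K := by ring
        rw [h8]
        linarith)
    have h1 := hM1 N (hm1.trans hNm) K (hm1.trans hmK)
    have h2 := hM2 K (hm2.trans hmK)
    have h3 := hsmall K hmK
    linarith

/-- Both statements, for bounded functions. -/
theorem both_bdd (hS : IsSusp μ T F th p) (hPM : PetMain F) (hFC : FlowCauchy F) (f : Fin ℓ → X → ℝ)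
    (hf : ∀ i, Measurable (f i)) (hb : ∀ i, ∃ C : ℝ, ∀ x, |f i x| ≤ C) (ε : ℝ) (hε : 0 < ε) :
    ∃ M : ℕ, (∀ N ≥ M, ∀ N' ≥ M, ∫ x, (rav T sn c f N x - rav T sn c f N' x) ^ 2 ∂μ ≤ ε) ∧
      ∀ N ≥ M, ∫ x, (rav T sn c f N x - rav T idn c f N x) ^ 2 ∂μ ≤ ε := by
  choose C hC using hb
  set D : ℝ := 1 + ∑ i, |C i| with hD
  have hD1 : 1 ≤ D := by
    have : 0 ≤ ∑ i, |C i| := Finset.sum_nonneg fun i _ => abs_nonneg _
    linarith
  have hD0 : 0 < D := by linarith
  have hCD : ∀ i x, |f i x| ≤ D := by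
    intro i x
    have h1 : |C i| ≤ ∑ i, |C i| := Finset.single_le_sum (f := fun i => |C i|) (fun i _ => abs_nonneg _) (Finset.mem_univ i)
    have := le_abs_self (C i)
    linarith [hC i x]
  set g : Fin ℓ → X → ℝ := fun i x => f i x / D with hg
  have hgm : ∀ i, Measurable (g i) := fun i => (hf i).div_const D
  have hgb : ∀ i x, |g i x| ≤ 1 := by
    intro i x
    simp only [hg]
    rw [abs_div, abs_of_pos hD0, div_le_one hD0]
    exact hCD i x
  have hrav : ∀ a N x, rav T a c f N x = D ^ ℓ * rav T a c g N x := by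
    intro a N x
    have h1 : ∀ n, ∏ j : Fin ℓ, f j ((T.toEquiv ^ (c j * a n)) x) =
        D ^ ℓ * ∏ j : Fin ℓ, g j ((T.toEquiv ^ (c j * a n)) x) := by
      intro n
      simp only [hg]
      rw [Finset.prod_div_distrib, Finset.prod_const, Finset.card_univ, Fintype.card_fin]
      field_simp
    unfold rav
    rw [Finset.sum_congr rfl (fun n _ => h1 n), ← Finset.mul_sum]
    ring
  obtain ⟨M, hM, hM'⟩ := both_one c hS hPM hFC hgm hgb (ε / (D ^ ℓ) ^ 2) (by positivity)
  refine ⟨M, fun N hN N' hN' => ?_, fun N hN => ?_⟩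
  · have h := hM N hN N' hN'
    have e : ∀ x, (rav T sn c f N x - rav T sn c f N' x) ^ 2 =
        (D ^ ℓ) ^ 2 * (rav T sn c g N x - rav T sn c g N' x) ^ 2 := by
      intro x
      rw [hrav, hrav]
      ring
    simp only [e]
    rw [integral_const_mul]
    rw [le_div_iff₀ (by positivity)] at h
    linarith
  · have h := hM' N hN
    have e : ∀ x, (rav T sn c f N x - rav T idn c f N x) ^ 2 =
        (D ^ ℓ) ^ 2 * (rav T sn c g N x - rav T idn c g N x) ^ 2 := by
      intro x
      rw [hrav, hrav]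
      ring
    simp only [e]
    rw [integral_const_mul]
    rw [le_div_iff₀ (by positivity)] at h
    linarith

theorem real_cauchy : RealCauchy.{0} sn := by
  intro X _ μ _ T hT ℓ c f hf hb ε hε
  obtain ⟨M, hM, _⟩ := both_bdd c (isSusp hT) (fun _ e g hg => pet_main (susF hT) e g hg)
    (fun _ e g hg => flow_cauchy (susF hT) e g hg) f hf hb ε hε
  exact ⟨M, hM⟩

theorem real_same : RealSame.{0} sn idn := by
  intro X _ μ _ T hT ℓ c f hf hb ε hε
  obtain ⟨M, _, hM⟩ := both_bdd c (isSusp hT) (fun _ e g hg => pet_main (susF hT) e g hg)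
    (fun _ e g hg => flow_cauchy (susF hT) e g hg) f hf hb ε hε
  exact ⟨M, hM⟩

end Pool.Agent.H60.NSIns
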