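import Pool.Agent.H60.NSIns.Base

/-!
From systems in `Type` to systems in any universe: the factor generated by the orbits of the
functions lives on a space of real sequences.
-/

set_option autoImplicit false

open MeasureTheory Filter Topology
open scoped ENNReal

namespace Pool.Agent.H60.NSIns

universe u

/-- The space of sequences. -/
abbrev Sq (ℓ : ℕ) : Type := Fin ℓ → ℤ → ℝ

/-- The shift. -/
def shift (ℓ : ℕ) : Sq ℓ ≃ᵐ Sq ℓ where
  toFun y := fun i k => y i (k + 1)
  invFun y := fun i k => y i (k - 1)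
  left_inv y := by funext i k; simp
  right_inv y := by funext i k; simp
  measurable_toFun := by
    refine measurable_pi_lambda _ fun i => measurable_pi_lambda _ fun k => ?_
    exact (measurable_pi_apply (k + 1)).comp (measurable_pi_apply i)
  measurable_invFun := by
    refine measurable_pi_lambda _ fun i => measurable_pi_lambda _ fun k => ?_
    exact (measurable_pi_apply (k - 1)).comp (measurable_pi_apply i)

lemma shift_apply {ℓ : ℕ} (y : Sq ℓ) (i : Fin ℓ) (k : ℤ) : shift ℓ y i k = y i (k + 1) := rfl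

lemma shift_symm_apply {ℓ : ℕ} (y : Sq ℓ) (i : Fin ℓ) (k : ℤ) :
    (shift ℓ).symm y i k = y i (k - 1) := rfl

section

variable {X : Type u} [MeasurableSpace X] {μ : Measure X} (T : X ≃ᵐ X) {ℓ : ℕ} (f : Fin ℓ → X → ℝ)

/-- The factor map. -/
def orb (x : X) : Sq ℓ := fun i k => f i ((T.toEquiv ^ k) x)

variable {f}

lemma orb_meas (hf : ∀ i, Measurable (f i)) : Measurable (orb T f) :=
  measurable_pi_lambda _ fun i => measurable_pi_lambda _ fun k => (hf i).comp (meas_zpow T k)

lemma orb_T (x : X) : orb T f (T x) = shift ℓ (orb T f x) := by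
  funext i k
  rw [shift_apply]
  unfold orb
  rw [zpow_succ_apply]

lemma orb_symm (x : X) : orb T f (T.symm x) = (shift ℓ).symm (orb T f x) := by
  funext i k
  rw [shift_symm_apply]
  unfold orb
  rw [zpow_pred_apply]

lemma orb_zpow (k : ℤ) (x : X) : orb T f ((T.toEquiv ^ k) x) = ((shift ℓ).toEquiv ^ k) (orb T f x) := by
  induction k using Int.induction_on generalizing x with
  | zero => rw [zpow_zero, zpow_zero]; rfl
  | succ k ih => rw [zpow_succ_apply, zpow_succ_apply, ih, orb_T]
  | pred k ih => rw [zpow_pred_apply, zpow_pred_apply, ih, orb_symm]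

lemma shift_mp (hT : MeasurePreserving T μ μ) (hf : ∀ i, Measurable (f i)) :
    MeasurePreserving (shift ℓ) (μ.map (orb T f)) (μ.map (orb T f)) := by
  refine ⟨(shift ℓ).measurable, ?_⟩
  rw [Measure.map_map (shift ℓ).measurable (orb_meas T hf)]
  have : (shift ℓ) ∘ (orb T f) = (orb T f) ∘ T := by
    funext x
    exact (orb_T T x).symm
  rw [this, ← Measure.map_map (orb_meas T hf) T.measurable, hT.map_eq]

end

/-- Every choice of real bounded functions on a system in any universe has a model in `Type`. -/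
lemma model {X : Type u} [MeasurableSpace X] {μ : Measure X} [IsProbabilityMeasure μ] {T : X ≃ᵐ X}
    (hT : MeasurePreserving T μ μ) {ℓ : ℕ} (c : Fin ℓ → ℤ) {f : Fin ℓ → X → ℝ}
    (hf : ∀ i, Measurable (f i)) (hb : ∀ i, ∃ C : ℝ, ∀ x, |f i x| ≤ C) :
    ∃ (ν : Measure (Sq ℓ)) (g : Fin ℓ → Sq ℓ → ℝ), IsProbabilityMeasure ν ∧
      MeasurePreserving (shift ℓ) ν ν ∧ (∀ i, Measurable (g i)) ∧
      (∀ i, ∃ C : ℝ, ∀ x, |g i x| ≤ C) ∧
      ∀ (a b : ℕ → ℤ) (N N' : ℕ), ∫ y, (rav (shift ℓ) a c g N y - rav (shift ℓ) b c g N' y) ^ 2 ∂ν =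
        ∫ x, (rav T a c f N x - rav T b c f N' x) ^ 2 ∂μ := by
  choose C hC using hb
  let g : Fin ℓ → Sq ℓ → ℝ := fun i y => max (-C i) (min (y i 0) (C i))
  have hg : ∀ i, Measurable (g i) := fun i =>
    measurable_const.max (((measurable_pi_apply (0 : ℤ)).comp (measurable_pi_apply i)).min
      measurable_const)
  have hgb : ∀ i, ∃ D : ℝ, ∀ y, |g i y| ≤ D := by
    intro i
    refine ⟨|C i|, fun y => ?_⟩
    rw [abs_le]
    constructor
    · exact (neg_le_neg (le_abs_self _)).trans (le_max_left _ _)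
    · exact max_le (neg_le_abs _) ((min_le_right _ _).trans (le_abs_self _))
  have hgo : ∀ i x, g i (orb T f x) = f i x := by
    intro i x
    have h := abs_le.mp (hC i x)
    have e : orb T f x i 0 = f i x := by unfold orb; rw [zpow_zero]; rfl
    change max (-C i) (min (orb T f x i 0) (C i)) = f i x
    rw [e, min_eq_left h.2, max_eq_right h.1]
  have hrav : ∀ a N x, rav (shift ℓ) a c g N (orb T f x) = rav T a c f N x := by
    intro a N x
    unfold rav
    congr 1
    refine Finset.sum_congr rfl fun n _ => Finset.prod_congr rfl fun j _ => ?_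
    rw [← orb_zpow, hgo]
  refine ⟨μ.map (orb T f), g, Measure.isProbabilityMeasure_map (orb_meas T hf).aemeasurable,
    shift_mp T hT hf, hg, hgb, fun a b N N' => ?_⟩
  rw [integral_map (orb_meas T hf).aemeasurable]
  · simp only [hrav]
  · exact (((rav_meas (shift ℓ) a c hg N).sub (rav_meas (shift ℓ) b c hg N')).pow_const
      2).aestronglyMeasurable

theorem lift (a : ℕ → ℤ) (H : RealCauchy.{0} a) : RealCauchy.{u} a := by
  intro X _ μ _ T hT ℓ c f hf hb ε hε
  obtain ⟨ν, g, hν, hs, hg, hgb, he⟩ := model hT c hf hb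
  obtain ⟨M, hM⟩ := H (Sq ℓ) ν (shift ℓ) hs ℓ c g hg hgb ε hε
  refine ⟨M, fun N hN N' hN' => ?_⟩
  rw [← he]
  exact hM N hN N' hN'

theorem liftS (a b : ℕ → ℤ) (H : RealSame.{0} a b) : RealSame.{u} a b := by
  intro X _ μ _ T hT ℓ c f hf hb ε hε
  obtain ⟨ν, g, hν, hs, hg, hgb, he⟩ := model hT c hf hb
  obtain ⟨M, hM⟩ := H (Sq ℓ) ν (shift ℓ) hs ℓ c g hg hgb ε hε
  refine ⟨M, fun N hN => ?_⟩
  rw [← he]
  exact hM N hN

end Pool.Agent.H60.NSIns
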